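import Pool.Agent.Lib.MP_377195_lc.Main

/-!
# SJT-incomparable c.e. sets below a c.e. set that is not strongly jump traceable

Let `E` be a c.e. set which is not strongly jump traceable. Then there are c.e. sets `A` and `B`,
both Turing reducible to `E`, with `A ≰_SJT B` and `B ≰_SJT A`. The jump `J` may be any universal
one; such jumps exist by `Pool.Agent.SJT.exists_universalJump`.
-/

namespace Pool.Agent.Results.MP_377195_lc.IncomparablePair

open Pool.Agent.SJT

theorem result {J : Set ℕ → ℕ →. ℕ} (hJ : IsUniversalJump J) {E : Set ℕ}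
    (hE : REPred fun x => x ∈ E) (hne : ¬ SJTReducible J E ∅) :
    ∃ A B : Set ℕ, (REPred fun x => x ∈ A) ∧ (REPred fun x => x ∈ B) ∧
      TuringReducible (chi A) (chi E) ∧ TuringReducible (chi B) (chi E) ∧
      ¬ SJTReducible J A B ∧ ¬ SJTReducible J B A :=
  main hJ hE hne

end Pool.Agent.Results.MP_377195_lc.IncomparablePair
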